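import Pool.Agent.H.MP_4f19f9_lc.SD.Defs

/-!
# Definitions used in the statement
-/

namespace Pool.Agent.MB

open Pool.Agent.SC Pool.Agent.SD

/-- Cubelike graphs: Cayley graphs of the groups (Z/2)^r, up to isomorphism. -/
def IsCubelike {V : Type*} (G : SimpleGraph V) : Prop :=
  ∃ (r : ℕ) (S : Set (Multiplicative (Fin r → ZMod 2))), Nonempty (G ≃g cayley S)

/-- Joins of a cubelike graph and an edgeless graph. -/
def IsCubelikeJoin {V : Type*} (G : SimpleGraph V) : Prop :=
  ∃ (s m : ℕ) (X : SimpleGraph (Fin s)), IsCubelike X ∧ Nonempty (G ≃g joinE X m)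

/-- There is a list of M graphs in the class Q, with at most v vertices and with capacity at most
a, such that for any k and any k submultiplicative functions which are at least the independence
number, at least M - k members G of the list are such that all k functions are at least b at G. -/
def HardList (Q : Code → Prop) (v M : ℕ) (a b : ℝ) : Prop :=
  ∃ G : Fin M → Code, (∀ i, (G i).1 ≤ v ∧ Q (G i) ∧ theta (gr (G i)) ≤ a) ∧
    ∀ (k : ℕ) (f : Fin k → Code → ℝ), (∀ l, IsBound (f l)) →
      M ≤ k + Nat.card {i : Fin M // ∀ l, b ≤ f l (G i)}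

end Pool.Agent.MB
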