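import Pool.Agent.H.MP_4f19f9_lc.MB.Main

/-!
# The theorem
-/

namespace Pool.Agent.MB

open Pool.Agent.SC Pool.Agent.SD SimpleGraph Finset Filter

/-- The combinatorial core, for one length r and one bound n for the primes. -/
theorem core2 {r n v : ℕ} (hv : 2 ^ (r + 1) ≤ v) (hv2 : v < 2 ^ (r + 2)) {a : ℝ}
    (ha : (Fintype.card {T : Finset (Fin r) // T.card ≤ n} : ℝ) ≤ a) :
    HardList (fun c => IsCubelike (gr c)) v (PR r n).card a (Real.sqrt v / 2) ∧
    HardList (fun c => IsCubelikeJoin (gr c) ∧ theta (gr c) = (gr c).indepNum)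
      v (PR r n).card a (Real.sqrt v / 2) := by
  classical
  have hs : Real.sqrt v / 2 ≤ Real.sqrt ((2 ^ r : ℕ) : ℝ) := by
    have h1 : (v : ℝ) ≤ (2 * 2) * ((2 ^ r : ℕ) : ℝ) := by
      have : v ≤ 4 * 2 ^ r := by
        have : 2 ^ (r + 2) = 4 * 2 ^ r := by ring
        omega
      have h2 : (v : ℝ) ≤ ((4 * 2 ^ r : ℕ) : ℝ) := by exact_mod_cast this
      refine h2.trans (le_of_eq ?_)
      push_cast
      ring
    have h2 : Real.sqrt v ≤ 2 * Real.sqrt ((2 ^ r : ℕ) : ℝ) := by
      calc Real.sqrt v ≤ Real.sqrt ((2 * 2) * ((2 ^ r : ℕ) : ℝ)) := Real.sqrt_le_sqrt h1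
        _ = 2 * Real.sqrt ((2 ^ r : ℕ) : ℝ) := by
            rw [Real.sqrt_mul (by norm_num), Real.sqrt_mul_self (by norm_num)]
    linarith
  have hb : ∀ p ∈ PR r n, theta (cayley (conn r p)) ≤
      ((Fintype.card {T : Finset (Fin r) // T.card ≤ n} : ℕ) : ℝ) := by
    intro p hp
    have := Fact.mk (PR_prime hp)
    refine (theta_conn r p).trans ?_
    have h1 : Fintype.card {T : Finset (Fin r) // T.card ≤ p - 1} ≤
        Fintype.card {T : Finset (Fin r) // T.card ≤ n} := by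
      apply Fintype.card_subtype_mono
      intro T hT
      have h2 := PR_le hp
      change T.card ≤ p - 1 at hT
      change T.card ≤ n
      omega
    exact_mod_cast h1
  have hm : Fintype.card {T : Finset (Fin r) // T.card ≤ n} ≤ 2 ^ r := by
    refine (Fintype.card_subtype_le _).trans ?_
    rw [Fintype.card_finset, Fintype.card_fin]
  have hvv : 2 ^ r + Fintype.card {T : Finset (Fin r) // T.card ≤ n} ≤ v := by
    have : 2 ^ (r + 1) = 2 ^ r + 2 ^ r := by ring
    omega
  exact core (fun p hp => PR_prime hp) (fun p hp q hq => PR_lt hp hq) hb ha hvv hs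

theorem main : ∃ C : ℝ, 0 < C ∧ ∀ v : ℕ, C ≤ v → ∀ N : ℝ, C * Real.sqrt (Real.log v) ≤ N →
    N ≤ Real.log v → ∃ M : ℕ, N / (C * Real.log (Real.log v)) ≤ M ∧
      HardList (fun c => IsCubelike (gr c)) v M ((C * Real.log v / N) ^ N) (Real.sqrt v / 2) ∧
      HardList (fun c => IsCubelikeJoin (gr c) ∧ theta (gr c) = (gr c).indepNum)
        v M ((C * Real.log v / N) ^ N) (Real.sqrt v / 2) := by
  obtain ⟨n₀, hn₀⟩ := many_primes
  have hl2 : (0.69 : ℝ) < Real.log 2 := by
    have := Real.log_two_gt_d9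
    linarith
  have hl2' : Real.log 2 < 0.7 := by
    have := Real.log_two_lt_d9
    linarith
  obtain ⟨C, hC⟩ : ∃ C : ℝ, 1024 ≤ C ∧ (2 * n₀ + 2 : ℝ) ≤ C := ⟨max 1024 (2 * n₀ + 2),
    le_max_left _ _, le_max_right _ _⟩
  obtain ⟨hC1, hC2⟩ := hC
  have hC0 : 0 < C := by linarith
  refine ⟨C, hC0, fun v hv N hN1 hN2 => ?_⟩
  have hvR : (1024 : ℝ) ≤ v := hC1.trans hv
  have hv1 : 1024 ≤ v := by exact_mod_cast hvR
  -- the length
  obtain ⟨r, hr1, hr2⟩ : ∃ r : ℕ, 2 ^ (r + 1) ≤ v ∧ v < 2 ^ (r + 2) := by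
    have h1 : 10 ≤ Nat.log 2 v := Nat.le_log_of_pow_le (by norm_num) (by norm_num; exact hv1)
    refine ⟨Nat.log 2 v - 1, ?_, ?_⟩
    · rw [show Nat.log 2 v - 1 + 1 = Nat.log 2 v by omega]
      exact Nat.pow_log_le_self 2 (by omega)
    · rw [show Nat.log 2 v - 1 + 2 = Nat.log 2 v + 1 by omega]
      exact Nat.lt_pow_succ_log_self (by norm_num) v
  have hv0 : (0 : ℝ) < v := by linarith
  have hLlow : (r + 1 : ℝ) * Real.log 2 ≤ Real.log v := by
    have h1 : ((2 : ℝ)) ^ (r + 1) ≤ v := by exact_mod_cast hr1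
    have h2 := Real.log_le_log (by positivity) h1
    rw [Real.log_pow] at h2
    push_cast at h2
    exact h2
  have hLup : Real.log v ≤ (r + 2 : ℝ) * Real.log 2 := by
    have h1 : (v : ℝ) ≤ (2 : ℝ) ^ (r + 2) := by exact_mod_cast hr2.le
    have h2 := Real.log_le_log hv0 h1
    rw [Real.log_pow] at h2
    push_cast at h2
    exact h2
  have hL6 : (6.9 : ℝ) ≤ Real.log v := by
    have h1 : Real.log (1024 : ℝ) ≤ Real.log v := Real.log_le_log (by norm_num) hvR
    have h2 : Real.log (1024 : ℝ) = 10 * Real.log 2 := by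
      rw [show (1024 : ℝ) = 2 ^ 10 by norm_num, Real.log_pow]
      norm_num
    rw [h2] at h1
    linarith
  set L : ℝ := Real.log v with hL
  have hr7 : (7 : ℝ) ≤ r := by nlinarith
  have hLr : L ≤ r := by nlinarith
  have hrL : (r : ℝ) ≤ 1.45 * L := by nlinarith
  have hL0 : 0 < L := by linarith
  have hsq1 : 1 ≤ Real.sqrt L := by
    rw [Real.one_le_sqrt]
    linarith
  have hNC : C ≤ N := by
    refine le_trans ?_ hN1
    nlinarith
  have hN0 : 0 < N := by linarith
  -- the number of primes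
  set n : ℕ := ⌊N⌋₊ with hn
  have hnN : (n : ℝ) ≤ N := Nat.floor_le hN0.le
  have hNn : N < n + 1 := Nat.lt_floor_add_one N
  have hn2 : N / 2 ≤ n := by linarith
  have hnn₀ : n₀ ≤ n := by
    have : (n₀ : ℝ) ≤ n := by linarith
    exact_mod_cast this
  have hsr : Real.sqrt r ≤ 1.21 * Real.sqrt L := by
    have h1 : Real.sqrt r ≤ Real.sqrt ((1.21 * 1.21) * L) := by
      apply Real.sqrt_le_sqrt
      nlinarith
    rw [Real.sqrt_mul (by norm_num), Real.sqrt_mul_self (by norm_num)] at h1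
    exact h1
  have h6 : 6 * Real.sqrt r ≤ n := by
    have h1 : 1024 * Real.sqrt L ≤ N := by
      refine le_trans ?_ hN1
      exact mul_le_mul_of_nonneg_right hC1 (by positivity)
    linarith
  have hprimes := hn₀ n hnn₀ r h6
  have hnR1 : (1 : ℝ) ≤ n := by linarith
  have hloglog : Real.log n ≤ Real.log L := Real.log_le_log (by linarith) (hnN.trans hN2)
  have hll0 : 0 < Real.log L := Real.log_pos (by linarith)
  have hkc : N / (C * Real.log L) ≤ (PR r n).card := by
    rw [div_le_iff₀ (by positivity)]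
    have h1 : (n : ℝ) / 4 ≤ (PR r n).card * Real.log L :=
      hprimes.trans (mul_le_mul_of_nonneg_left hloglog (Nat.cast_nonneg _))
    have h2 : ((PR r n).card : ℝ) * Real.log L * 1024 ≤ ((PR r n).card : ℝ) * Real.log L * C :=
      mul_le_mul_of_nonneg_left hC1 (by positivity)
    linarith
  -- the capacity
  have hcap : (Fintype.card {T : Finset (Fin r) // T.card ≤ n} : ℝ) ≤ (C * L / N) ^ N := by
    refine (card_le_rpow hN0 hnN (hN2.trans hLr)).trans ?_
    apply Real.rpow_le_rpow (by positivity) _ hN0.le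
    apply div_le_div_of_nonneg_right _ hN0.le
    have he : Real.exp 1 < 2.7182818286 := Real.exp_one_lt_d9
    have he0 : 0 < Real.exp 1 := Real.exp_pos 1
    calc Real.exp 1 * r ≤ 2.7182818286 * (1.45 * L) :=
          mul_le_mul he.le hrL (Nat.cast_nonneg _) (by norm_num)
      _ ≤ C * L := by nlinarith
  exact ⟨(PR r n).card, hkc, core2 hr1 hr2 hcap⟩

end Pool.Agent.MB
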