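import Mathlib

/-!
# Numerical estimates
-/

namespace Pool.Agent.MB

open Finset Filter

theorem card_small (r m : ℕ) {x : ℝ} (hx : 0 < x) (hx1 : x ≤ 1) :
    (Fintype.card {T : Finset (Fin r) // T.card ≤ m} : ℝ) * x ^ m ≤ (1 + x) ^ r := by
  classical
  have h1 : ∑ T : Finset (Fin r), x ^ T.card = (1 + x) ^ r := by
    have := Fintype.sum_pow_mul_eq_add_pow (Fin r) x 1
    simp only [one_pow, mul_one, Fintype.card_fin] at this
    rw [this, add_comm]
  rw [← h1, Fintype.card_subtype, ← nsmul_eq_mul, ← Finset.sum_const]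
  calc ∑ T ∈ univ.filter (fun T : Finset (Fin r) => T.card ≤ m), x ^ m
      ≤ ∑ T ∈ univ.filter (fun T : Finset (Fin r) => T.card ≤ m), x ^ T.card := by
        refine Finset.sum_le_sum (fun T hT => ?_)
        rw [Finset.mem_filter] at hT
        exact pow_le_pow_of_le_one hx.le hx1 hT.2
    _ ≤ ∑ T : Finset (Fin r), x ^ T.card :=
        Finset.sum_le_sum_of_subset_of_nonneg (Finset.filter_subset _ _)
          (fun T _ _ => by positivity)

/-- The number of sets with at most N elements is at most (e r / N)^N. -/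
theorem card_le_rpow {r m : ℕ} {N : ℝ} (hN : 0 < N) (hm : (m : ℝ) ≤ N) (hr : N ≤ r) :
    (Fintype.card {T : Finset (Fin r) // T.card ≤ m} : ℝ) ≤ (Real.exp 1 * r / N) ^ N := by
  have hr0 : (0 : ℝ) < r := hN.trans_le hr
  have hx : 0 < N / r := by positivity
  have hx1 : N / r ≤ 1 := (div_le_one hr0).2 hr
  have h1 := card_small r m hx hx1
  have h2 : (1 + N / r) ^ r ≤ Real.exp N := by
    calc (1 + N / (r : ℝ)) ^ r ≤ (Real.exp (N / r)) ^ r := by
          apply pow_le_pow_left₀ (by positivity)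
          have := Real.add_one_le_exp (N / (r : ℝ))
          linarith
      _ = Real.exp N := by
          rw [← Real.exp_nat_mul]
          congr 1
          field_simp
  have h3 : (N / r) ^ N ≤ (N / r) ^ m := by
    rw [← Real.rpow_natCast]
    exact Real.rpow_le_rpow_of_exponent_ge hx hx1 hm
  have h4 : (Fintype.card {T : Finset (Fin r) // T.card ≤ m} : ℝ) * (N / r) ^ N ≤ Real.exp N :=
    (mul_le_mul_of_nonneg_left h3 (Nat.cast_nonneg _)).trans (h1.trans h2)
  have h5 : (Real.exp 1 * r / N) ^ N * (N / r) ^ N = Real.exp N := by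
    rw [← Real.mul_rpow (by positivity) hx.le]
    have : Real.exp 1 * r / N * (N / r) = Real.exp 1 := by field_simp
    rw [this, Real.exp_one_rpow]
  have h6 : 0 < (N / r) ^ N := Real.rpow_pos_of_pos hx N
  rw [← h5] at h4
  exact le_of_mul_le_mul_right h4 h6

/-- The primes p with r < p^2 and p at most N. -/
def PR (r N : ℕ) : Finset ℕ := (Finset.range (N + 1)).filter (fun p => p.Prime ∧ r < p * p)

theorem PR_prime {r N p : ℕ} (hp : p ∈ PR r N) : p.Prime := (Finset.mem_filter.1 hp).2.1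

theorem PR_le {r N p : ℕ} (hp : p ∈ PR r N) : p ≤ N :=
  Nat.lt_succ_iff.1 (Finset.mem_range.1 (Finset.mem_filter.1 hp).1)

theorem PR_lt {r N p q : ℕ} (hp : p ∈ PR r N) (hq : q ∈ PR r N) : r < p * q := by
  unfold PR at hp hq
  rw [Finset.mem_filter] at hp hq
  rcases le_total p q with h | h
  · exact hp.2.2.trans_le (Nat.mul_le_mul_left p h)
  · exact hq.2.2.trans_le (Nat.mul_le_mul_right q h)

theorem theta_le_PR (r n : ℕ) : Chebyshev.theta n ≤
    (PR r n).card * Real.log n + Real.log 4 * (Nat.sqrt r : ℝ) := by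
  classical
  have h1 : Nat.primesLE n ⊆ PR r n ∪ Nat.primesLE (Nat.sqrt r) := by
    intro p hp
    rw [Nat.mem_primesLE] at hp
    rw [Finset.mem_union]
    by_cases h : r < p * p
    · exact Or.inl (Finset.mem_filter.2 ⟨Finset.mem_range.2 (Nat.lt_succ_of_le hp.1), hp.2, h⟩)
    · right
      rw [Nat.mem_primesLE, Nat.le_sqrt]
      exact ⟨by omega, hp.2⟩
  have hpos : ∀ p : ℕ, 0 ≤ Real.log (p : ℝ) := fun p => Real.log_natCast_nonneg p
  rw [Chebyshev.theta_eq_sum_primesLE_log]
  calc ∑ p ∈ Nat.primesLE n, Real.log (p : ℝ)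
      ≤ ∑ p ∈ PR r n ∪ Nat.primesLE (Nat.sqrt r), Real.log (p : ℝ) :=
        Finset.sum_le_sum_of_subset_of_nonneg h1 (fun p _ _ => hpos p)
    _ ≤ ∑ p ∈ PR r n, Real.log (p : ℝ) + ∑ p ∈ Nat.primesLE (Nat.sqrt r), Real.log (p : ℝ) := by
        rw [← Finset.sum_union_inter]
        exact le_add_of_nonneg_right (Finset.sum_nonneg (fun p _ => hpos p))
    _ ≤ (PR r n).card * Real.log n + Real.log 4 * (Nat.sqrt r : ℝ) := by
        apply add_le_add
        · rw [← nsmul_eq_mul]
          apply Finset.sum_le_card_nsmul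
          intro p hp
          apply Real.log_le_log
          · exact_mod_cast (PR_prime hp).pos
          · exact_mod_cast PR_le hp
        · rw [← Chebyshev.theta_eq_sum_primesLE_log]
          exact Chebyshev.theta_le_log4_mul_x (Nat.cast_nonneg _)

/-- There are at least n / (4 log n) primes p at most n with r < p^2, for n at least 6 √r. -/
theorem many_primes : ∃ n₀ : ℕ, ∀ n : ℕ, n₀ ≤ n → ∀ r : ℕ, 6 * Real.sqrt r ≤ n →
    (n : ℝ) / 4 ≤ (PR r n).card * Real.log n := by
  have e1 : ∀ᶠ x : ℝ in atTop, ‖Real.log x‖ ≤ (1 / 100) * ‖id x‖ :=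
    Real.isLittleO_log_id_atTop.bound (by norm_num)
  have e2 : ∀ᶠ x : ℝ in atTop, ‖Real.log x‖ ≤ (1 / 100) * ‖x ^ (1 / 2 : ℝ)‖ :=
    (isLittleO_log_rpow_atTop (by norm_num : (0 : ℝ) < 1 / 2)).bound (by positivity)
  obtain ⟨X1, hX1⟩ := eventually_atTop.1 e1
  obtain ⟨X2, hX2⟩ := eventually_atTop.1 e2
  obtain ⟨R, hR⟩ := exists_nat_gt (max (max X2 4) X1)
  refine ⟨R, fun n hn r hr => ?_⟩
  have hnR : (R : ℝ) ≤ n := by exact_mod_cast hn
  have h1 : max (max X2 4) X1 < (n : ℝ) := hR.trans_le hnR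
  have hX2n : X2 ≤ (n : ℝ) := (le_max_left _ _).trans ((le_max_left _ _).trans h1.le)
  have hn4 : (4 : ℝ) ≤ n := (le_max_right _ _).trans ((le_max_left _ _).trans h1.le)
  have hX1n : X1 ≤ (n : ℝ) := (le_max_right _ _).trans h1.le
  have hl0 : 0 ≤ Real.log n := Real.log_nonneg (by linarith)
  have hA : Real.log (n + 1) ≤ 1 / 100 * (n + 1) := by
    have := hX1 (n + 1) (by linarith)
    simp only [Real.norm_eq_abs, id_eq] at this
    rw [abs_of_nonneg (Real.log_nonneg (by linarith)), abs_of_nonneg (by linarith)] at this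
    exact this
  have hB : Real.log n ≤ 1 / 100 * Real.sqrt n := by
    have h3 := hX2 n hX2n
    simp only [Real.norm_eq_abs] at h3
    rw [abs_of_nonneg hl0, abs_of_nonneg (by positivity), ← Real.sqrt_eq_rpow] at h3
    exact h3
  have hC : 2 * Real.sqrt n * Real.log n ≤ n / 50 := by
    have h5 : Real.sqrt n * Real.sqrt n = n := Real.mul_self_sqrt (by linarith)
    calc 2 * Real.sqrt n * Real.log n ≤ 2 * Real.sqrt n * (1 / 100 * Real.sqrt n) :=
          mul_le_mul_of_nonneg_left hB (by positivity)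
      _ = (Real.sqrt n * Real.sqrt n) / 50 := by ring
      _ = n / 50 := by rw [h5]
  have hD := Chebyshev.theta_ge n
  have hE := theta_le_PR r n
  have hl2 : (0.69 : ℝ) < Real.log 2 := by
    have := Real.log_two_gt_d9
    linarith
  have hl2' : Real.log 2 < 0.7 := by
    have := Real.log_two_lt_d9
    linarith
  have hl4 : Real.log 4 < 1.4 := by
    have : Real.log 4 = 2 * Real.log 2 := by
      rw [show (4 : ℝ) = 2 ^ 2 by norm_num, Real.log_pow]
      norm_num
    linarith
  have hs : (Nat.sqrt r : ℝ) ≤ n / 6 := by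
    have : (Nat.sqrt r : ℝ) ≤ Real.sqrt r := Real.nat_sqrt_le_real_sqrt
    linarith
  have hF : Real.log 4 * (Nat.sqrt r : ℝ) ≤ 1.4 * (n / 6) :=
    mul_le_mul hl4.le hs (Nat.cast_nonneg _) (by norm_num)
  have hG : 0.69 * (n : ℝ) ≤ n * Real.log 2 := by nlinarith
  linarith

end Pool.Agent.MB
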