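import Pool.Agent.H.MP_4f19f9_lc.MB.Rep
import Pool.Agent.H.MP_4f19f9_lc.MB.Num
import Pool.Agent.H.MP_4f19f9_lc.SD.Comp1
import Pool.Agent.H.MP_4f19f9_lc.MB.Defs

/-!
# Families of submultiplicative bounds
-/

namespace Pool.Agent.MB

open Pool.Agent.SC Pool.Agent.SD SimpleGraph Finset

theorem exists_code_iso {V : Type} [Finite V] (G : SimpleGraph V) :
    ∃ c : Code, c.1 = Nat.card V ∧ Nonempty (gr c ≃g G) := by
  obtain ⟨n, ⟨e⟩⟩ := Finite.exists_equiv_fin V
  obtain ⟨L, -, hL⟩ := exists_gr (G.comap e.symm)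
  refine ⟨(n, L), ?_, ?_⟩
  · show n = Nat.card V
    rw [Nat.card_congr e, Nat.card_eq_fintype_card, Fintype.card_fin]
  · rw [hL]
    exact ⟨{ toEquiv := e.symm
             map_rel_iff' := by intro a b; exact Iff.rfl }⟩

theorem sep_sprod {V W : Type*} {G : SimpleGraph V} {H : SimpleGraph W} {x y : V × W}
    (h : Gᶜ.Adj x.1 y.1 ∨ Hᶜ.Adj x.2 y.2) : (sprod G H)ᶜ.Adj x y := by
  rw [compl_adj]
  rcases h with h | h <;> rw [compl_adj] at h
  · refine ⟨fun e => h.1 (by rw [e]), fun h2 => ?_⟩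
    rcases h2.2.1 with h3 | h3
    · exact h.1 h3
    · exact h.2 h3
  · refine ⟨fun e => h.1 (by rw [e]), fun h2 => ?_⟩
    rcases h2.2.2 with h3 | h3
    · exact h.1 h3
    · exact h.2 h3

/-- Each submultiplicative bound is small at at most one of the graphs. -/
theorem count {N M : ℕ} (G : Fin M → Code)
    (h : ∀ i j, i ≠ j → N ≤ (sprod (gr (G i)) (gr (G j))).indepNum) {b : ℝ}
    (hbN : b ≤ Real.sqrt N) (k : ℕ) (f : Fin k → Code → ℝ) (hf : ∀ l, IsBound (f l)) :
    M ≤ k + Nat.card {i : Fin M // ∀ l, b ≤ f l (G i)} := by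
  classical
  have hbad : ∀ i : {i : Fin M // ¬ ∀ l, b ≤ f l (G i)}, ∃ l, f l (G i.1) < b := by
    intro i
    have := i.2
    push Not at this
    exact this
  choose l hl using hbad
  have hinj : Function.Injective l := by
    intro i j hij
    by_contra hne
    have hne' : i.1 ≠ j.1 := fun e => hne (Subtype.ext e)
    have h2 : f (l i) (G i.1) < Real.sqrt N := (hl i).trans_le hbN
    have h3 : f (l i) (G j.1) < Real.sqrt N := by
      rw [hij]
      exact (hl j).trans_le hbN
    have hb := hf (l i)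
    obtain ⟨e⟩ := gr_mulc (G i.1) (G j.1)
    have h4 : (N : ℝ) ≤ ((gr (mulc (G i.1) (G j.1))).indepNum : ℝ) := by
      rw [indepNum_congr e]
      exact_mod_cast h i.1 j.1 hne'
    have h5 := h4.trans ((hb.indep _).trans (hb.submul _ _ _ ⟨e⟩))
    have h6 : 0 ≤ f (l i) (G i.1) := le_trans (Nat.cast_nonneg _) (hb.indep _)
    have h7 : 0 ≤ f (l i) (G j.1) := le_trans (Nat.cast_nonneg _) (hb.indep _)
    have h8 := mul_lt_mul'' h2 h3 h6 h7
    rw [Real.mul_self_sqrt (Nat.cast_nonneg N)] at h8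
    exact absurd h5 (not_le.2 h8)
  have h1 : Nat.card {i : Fin M // ¬ ∀ l, b ≤ f l (G i)} ≤ k := by
    have := Nat.card_le_card_of_injective l hinj
    rwa [Nat.card_eq_fintype_card (α := Fin k), Fintype.card_fin] at this
  have h2 : Nat.card {i : Fin M // ∀ l, b ≤ f l (G i)} +
      Nat.card {i : Fin M // ¬ ∀ l, b ≤ f l (G i)} = M := by
    rw [Nat.card_eq_fintype_card, Nat.card_eq_fintype_card, Fintype.card_subtype,
      Fintype.card_subtype]
    have := Finset.card_filter_add_card_filter_not (s := (Finset.univ : Finset (Fin M)))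
      (fun i => ∀ l, b ≤ f l (G i))
    rw [Finset.card_univ, Fintype.card_fin] at this
    exact this
  omega

theorem hd_pos {r : ℕ} {x y : Fin r → ZMod 2} (h : x ≠ y) : 0 < hd x y := by
  unfold hd
  rw [Finset.card_pos]
  obtain ⟨i, hi⟩ := Function.ne_iff.1 h
  exact ⟨i, Finset.mem_filter.2 ⟨Finset.mem_univ _, hi⟩⟩

theorem hd_le {r : ℕ} (x y : Fin r → ZMod 2) : hd x y ≤ r := by
  unfold hd
  refine (Finset.card_le_univ _).trans ?_
  rw [Fintype.card_fin]

instance finCube (r : ℕ) : Finite (Multiplicative (Fin r → ZMod 2)) :=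
  inferInstanceAs (Finite (Fin r → ZMod 2))

theorem card_cube (r : ℕ) : Nat.card (Multiplicative (Fin r → ZMod 2)) = 2 ^ r := by
  have h : Nat.card (Multiplicative (Fin r → ZMod 2)) = Nat.card (Fin r → ZMod 2) :=
    Nat.card_congr Multiplicative.toAdd
  rw [h, Nat.card_eq_fintype_card, Fintype.card_fun, Fintype.card_fin, ZMod.card]

/-- The diagonal is a large independent set. -/
theorem indep_ge {r p q : ℕ} (hpq : Nat.Coprime p q) (hr : r < p * q) {V W : Type*} [Finite V]
    [Finite W] {A : SimpleGraph V} {B : SimpleGraph W}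
    (u : Multiplicative (Fin r → ZMod 2) → V)
    (hu : ∀ x y, (cayley (conn r p))ᶜ.Adj x y → Aᶜ.Adj (u x) (u y))
    (w : Multiplicative (Fin r → ZMod 2) → W)
    (hw : ∀ x y, (cayley (conn r q))ᶜ.Adj x y → Bᶜ.Adj (w x) (w y)) :
    2 ^ r ≤ (sprod A B).indepNum := by
  classical
  have := Fintype.ofFinite (Multiplicative (Fin r → ZMod 2))
  have h1 : (univ : Finset (Multiplicative (Fin r → ZMod 2))).card = 2 ^ r := by
    rw [Finset.card_univ, ← Nat.card_eq_fintype_card, card_cube]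
  rw [← h1]
  refine card_le _ (fun x => (u x, w x)) (fun x _ y _ hxy => ?_)
  have hne : Multiplicative.toAdd x ≠ Multiplicative.toAdd y :=
    fun e => hxy (Multiplicative.toAdd.injective e)
  apply sep_sprod
  by_cases hp : p ∣ hd (Multiplicative.toAdd x) (Multiplicative.toAdd y)
  · by_cases hq : q ∣ hd (Multiplicative.toAdd x) (Multiplicative.toAdd y)
    · exfalso
      have h2 := Nat.le_of_dvd (hd_pos hne) (hpq.mul_dvd_of_dvd_of_dvd hp hq)
      have h3 := hd_le (Multiplicative.toAdd x) (Multiplicative.toAdd y)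
      omega
    · right
      apply hw
      rw [compl_adj, conn_adj]
      exact ⟨hxy, fun h => hq h.2⟩
  · left
    apply hu
    rw [compl_adj, conn_adj]
    exact ⟨hxy, fun h => hp h.2⟩

theorem core {r m v : ℕ} {P : Finset ℕ} (hP : ∀ p ∈ P, p.Prime)
    (hPQ : ∀ p ∈ P, ∀ q ∈ P, r < p * q) {a b : ℝ}
    (hb : ∀ p ∈ P, theta (cayley (conn r p)) ≤ m) (hma : (m : ℝ) ≤ a) (hv : 2 ^ r + m ≤ v)
    (hbs : b ≤ Real.sqrt ((2 ^ r : ℕ) : ℝ)) :
    HardList (fun c => IsCubelike (gr c)) v P.card a b ∧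
    HardList (fun c => IsCubelikeJoin (gr c) ∧ theta (gr c) = (gr c).indepNum)
      v P.card a b := by
  choose c hc1 hc2 using fun p => exists_code_iso (cayley (conn r p))
  have hcs : ∀ p, (c p).1 = 2 ^ r := fun p => (hc1 p).trans (card_cube r)
  have hcay : ∀ p, IsCubelike (gr (c p)) := fun p => ⟨r, conn r p, hc2 p⟩
  have hmap : ∀ p, ∃ u : Multiplicative (Fin r → ZMod 2) → Fin (c p).1,
      ∀ x y, (cayley (conn r p))ᶜ.Adj x y → (gr (c p))ᶜ.Adj (u x) (u y) := by
    intro p
    obtain ⟨e⟩ := hc2 p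
    refine ⟨fun x => e.symm x, fun x y h => ?_⟩
    rw [compl_adj] at h ⊢
    exact ⟨fun he => h.1 (e.symm.injective he), fun ha => h.2 (e.symm.map_adj_iff.1 ha)⟩
  choose u hu using hmap
  have hth : ∀ p, theta (gr (c p)) = theta (cayley (conn r p)) := by
    intro p
    obtain ⟨e⟩ := hc2 p
    exact theta_congr e
  have hne : ∀ i j : Fin P.card, i ≠ j → (P.equivFin.symm i).1 ≠ (P.equivFin.symm j).1 :=
    fun i j hij he => hij (P.equivFin.symm.injective (Subtype.ext he))
  constructor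
  · refine ⟨fun i => c (P.equivFin.symm i).1, fun i => ⟨?_, hcay _, ?_⟩, ?_⟩
    · rw [hcs]
      omega
    · rw [hth]
      exact (hb _ (P.equivFin.symm i).2).trans hma
    · refine count (N := 2 ^ r) _ (fun i j hij => ?_) hbs
      exact indep_ge ((Nat.coprime_primes (hP _ (P.equivFin.symm i).2)
        (hP _ (P.equivFin.symm j).2)).2 (hne i j hij))
        (hPQ _ (P.equivFin.symm i).2 _ (P.equivFin.symm j).2) (u _) (hu _) (u _) (hu _)
  · choose d hd1 hd2 using fun p => exists_code_iso (joinE (gr (c p)) m)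
    have hmap2 : ∀ p, ∃ w : Multiplicative (Fin r → ZMod 2) → Fin (d p).1,
        ∀ x y, (cayley (conn r p))ᶜ.Adj x y → (gr (d p))ᶜ.Adj (w x) (w y) := by
      intro p
      obtain ⟨e⟩ := hd2 p
      refine ⟨fun x => e.symm (Sum.inl (u p x)), fun x y h => ?_⟩
      have h2 : (joinE (gr (c p)) m)ᶜ.Adj (Sum.inl (u p x)) (Sum.inl (u p y)) :=
        sep_joinE.2 (Or.inl ⟨_, _, rfl, rfl, hu p x y h⟩)
      rw [compl_adj] at h2 ⊢
      exact ⟨fun he => h2.1 (e.symm.injective he), fun ha => h2.2 (e.symm.map_adj_iff.1 ha)⟩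
    choose w hw using hmap2
    have hbm : ∀ p ∈ P, theta (gr (c p)) ≤ m := by
      intro p hp
      rw [hth]
      exact hb p hp
    have hT : ∀ p ∈ P, theta (gr (d p)) = m := by
      intro p hp
      have hne : Nonempty (Fin (c p).1) := by
        rw [hcs]
        exact ⟨⟨0, by positivity⟩⟩
      obtain ⟨e⟩ := hd2 p
      rw [theta_congr e, theta_joinE]
      exact max_eq_right (hbm p hp)
    have hI : ∀ p ∈ P, (gr (d p)).indepNum = m := by
      intro p hp
      obtain ⟨e⟩ := hd2 p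
      rw [indepNum_congr e, indepNum_joinE]
      apply max_eq_right
      have := (indepNum_le_theta (gr (c p))).trans (hbm p hp)
      exact_mod_cast this
    refine ⟨fun i => d (P.equivFin.symm i).1, fun i => ⟨?_, ⟨?_, ?_⟩, ?_⟩, ?_⟩
    · rw [hd1, Nat.card_sum, Nat.card_eq_fintype_card, Nat.card_eq_fintype_card,
        Fintype.card_fin, Fintype.card_fin, hcs]
      exact hv
    · exact ⟨_, m, gr (c _), hcay _, hd2 _⟩
    · rw [hT _ (P.equivFin.symm i).2, hI _ (P.equivFin.symm i).2]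
    · rw [hT _ (P.equivFin.symm i).2]
      exact hma
    · refine count (N := 2 ^ r) _ (fun i j hij => ?_) hbs
      exact indep_ge ((Nat.coprime_primes (hP _ (P.equivFin.symm i).2)
        (hP _ (P.equivFin.symm j).2)).2 (hne i j hij))
        (hPQ _ (P.equivFin.symm i).2 _ (P.equivFin.symm j).2) (w _) (hw _) (w _) (hw _)

end Pool.Agent.MB
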