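import Pool.Agent.SC.Join

/-!
# Haemers' bound and the cube graphs
-/

namespace Pool.Agent.MB

open Pool.Agent.SC SimpleGraph Finset

theorem pair_eq {V D F : Type} [Fintype D] [Field F] {n : ℕ} (a b : V → D → F)
    (x y : Fin n → V) :
    ∑ κ : Fin n → D, (∏ i, a (x i) (κ i)) * (∏ i, b (y i) (κ i)) =
      ∏ i, ∑ k, a (x i) k * b (y i) k := by
  classical
  rw [Finset.prod_univ_sum, Fintype.piFinset_univ]
  exact Finset.sum_congr rfl (fun κ _ => Finset.prod_mul_distrib.symm)

/-- Haemers' bound, for a factorisation of the matrix over the field F. -/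
theorem theta_le_of_rep {V D F : Type} [Finite V] [Fintype D] [Field F] (G : SimpleGraph V)
    (a b : V → D → F) (h1 : ∀ x, ∑ k, a x k * b x k ≠ 0)
    (h2 : ∀ x y, Gᶜ.Adj x y → ∑ k, a x k * b y k = 0) : theta G ≤ (Fintype.card D : ℝ) := by
  classical
  apply theta_le G (by positivity)
  intro n
  obtain ⟨C, hC, hC2⟩ := Pool.Agent.SC.exists_code (spow G (Fin (n + 1)))
  have hli : LinearIndependent F
      (fun x : {x // x ∈ C} => fun κ : Fin (n + 1) → D => ∏ i, a (x.1 i) (κ i)) := by
    rw [Fintype.linearIndependent_iff]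
    intro g hg y
    have h3 : ∑ x : {x // x ∈ C}, g x *
        ∑ κ : Fin (n + 1) → D, (∏ i, a (x.1 i) (κ i)) * (∏ i, b (y.1 i) (κ i)) = 0 := by
      have h4 : ∀ κ : Fin (n + 1) → D, ∑ x : {x // x ∈ C}, g x * ∏ i, a (x.1 i) (κ i) = 0 := by
        intro κ
        have := congrFun hg κ
        simpa [Finset.sum_apply] using this
      calc ∑ x : {x // x ∈ C}, g x *
          ∑ κ : Fin (n + 1) → D, (∏ i, a (x.1 i) (κ i)) * (∏ i, b (y.1 i) (κ i))
          = ∑ κ : Fin (n + 1) → D, (∑ x : {x // x ∈ C}, g x * ∏ i, a (x.1 i) (κ i)) *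
              (∏ i, b (y.1 i) (κ i)) := by
            simp only [Finset.mul_sum, Finset.sum_mul]
            rw [Finset.sum_comm]
            refine Finset.sum_congr rfl (fun κ _ => Finset.sum_congr rfl (fun x _ => ?_))
            ring
        _ = 0 := by
            refine Finset.sum_eq_zero (fun κ _ => ?_)
            rw [h4 κ, zero_mul]
    simp only [pair_eq] at h3
    rw [Finset.sum_eq_single y] at h3
    · rcases mul_eq_zero.1 h3 with h5 | h5
      · exact h5
      · exfalso
        rw [Finset.prod_eq_zero_iff] at h5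
        obtain ⟨i, -, h6⟩ := h5
        exact h1 _ h6
    · intro x _ hxy
      have h5 := hC2 x.1 x.2 y.1 y.2 (fun e => hxy (Subtype.ext e))
      rw [sep_spow] at h5
      obtain ⟨i, hi⟩ := h5
      rw [Finset.prod_eq_zero (Finset.mem_univ i) (h2 _ _ hi), mul_zero]
    · intro h
      exact absurd (Finset.mem_univ y) h
  have h7 := hli.fintype_card_le_finrank
  rw [Module.finrank_fintype_fun_eq_card, Fintype.card_fun, Fintype.card_fin,
    Fintype.card_coe, hC] at h7
  exact_mod_cast h7

section cube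

variable (F : Type) [Field F] {r : ℕ}

/-- The monomial of the set T. -/
def ind (T : Finset (Fin r)) (x : Fin r → ZMod 2) : F := if ∀ i ∈ T, x i ≠ 0 then 1 else 0

/-- Functions of degree at most j. -/
def W (r j : ℕ) : Submodule F ((Fin r → ZMod 2) → F) :=
  Submodule.span F (Set.range (fun T : {T : Finset (Fin r) // T.card ≤ j} => ind F T.1))

theorem ind_mem {j : ℕ} {T : Finset (Fin r)} (h : T.card ≤ j) : ind F T ∈ W F r j :=
  Submodule.subset_span ⟨⟨T, h⟩, rfl⟩

theorem W_mono {j k : ℕ} (h : j ≤ k) : W F r j ≤ W F r k := by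
  apply Submodule.span_le.2
  rintro _ ⟨T, rfl⟩
  exact ind_mem F (T.2.trans h)

theorem ind_mul (i : Fin r) (T : Finset (Fin r)) (x : Fin r → ZMod 2) :
    ind F {i} x * ind F T x = ind F (insert i T) x := by
  unfold ind
  by_cases h1 : x i = 0 <;> by_cases h2 : ∀ i ∈ T, x i ≠ 0 <;> simp [h1, h2]

theorem mul_mem {j : ℕ} (i : Fin r) {g : (Fin r → ZMod 2) → F} (hg : g ∈ W F r j) :
    (fun x => ind F {i} x * g x) ∈ W F r (j + 1) := by
  induction hg using Submodule.span_induction with
  | mem g hg =>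
    obtain ⟨T, rfl⟩ := hg
    have : (fun x => ind F {i} x * ind F T.1 x) = ind F (insert i T.1) := by
      funext x
      exact ind_mul F i T.1 x
    simp only []
    rw [this]
    exact ind_mem F ((Finset.card_insert_le _ _).trans (Nat.succ_le_succ T.2))
  | zero =>
    have : (fun x : Fin r → ZMod 2 => ind F {i} x * (0 : (Fin r → ZMod 2) → F) x) = 0 := by
      funext x
      simp
    rw [this]
    exact Submodule.zero_mem _
  | add g h _ _ hg hh =>
    have : (fun x => ind F {i} x * (g + h) x) =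
        (fun x => ind F {i} x * g x) + (fun x => ind F {i} x * h x) := by
      funext x
      simp [mul_add]
    rw [this]
    exact Submodule.add_mem _ hg hh
  | smul c g _ hg =>
    have : (fun x => ind F {i} x * (c • g) x) = c • (fun x => ind F {i} x * g x) := by
      funext x
      simp only [Pi.smul_apply, smul_eq_mul]
      ring
    rw [this]
    exact Submodule.smul_mem _ _ hg

/-- Hamming distance. -/
def hd (x y : Fin r → ZMod 2) : ℕ := (univ.filter (fun i => x i ≠ y i)).card

theorem hd_eq (x y : Fin r → ZMod 2) :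
    (hd x y : F) = ∑ i, (ind F {i} y + (1 - 2 * ind F {i} y) * ind F {i} x) := by
  unfold hd
  rw [Finset.card_filter, Nat.cast_sum]
  refine Finset.sum_congr rfl (fun i _ => ?_)
  have h : ∀ a b : ZMod 2, ((if a ≠ b then 1 else 0 : ℕ) : F) =
      (if b ≠ 0 then 1 else 0) + (1 - 2 * (if b ≠ 0 then 1 else 0)) * (if a ≠ 0 then 1 else 0) := by
    intro a b
    have ha : a = 0 ∨ a = 1 := by revert a; decide
    have hb : b = 0 ∨ b = 1 := by revert b; decide
    rcases ha with rfl | rfl <;> rcases hb with rfl | rfl <;> norm_num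
  rw [h (x i) (y i)]
  simp [ind]

theorem hd_mul_mem {j : ℕ} (y : Fin r → ZMod 2) {g : (Fin r → ZMod 2) → F} (hg : g ∈ W F r j) :
    (fun x => (hd x y : F) * g x) ∈ W F r (j + 1) := by
  have : (fun x => (hd x y : F) * g x) = ∑ i, ((ind F {i} y) • g +
      (1 - 2 * ind F {i} y) • (fun x => ind F {i} x * g x)) := by
    funext x
    rw [hd_eq, Finset.sum_mul, Finset.sum_apply]
    refine Finset.sum_congr rfl (fun i _ => ?_)
    simp only [Pi.add_apply, Pi.smul_apply, smul_eq_mul]
    ring
  rw [this]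
  exact Submodule.sum_mem _ (fun i _ => Submodule.add_mem _
    (Submodule.smul_mem _ _ (W_mono F (Nat.le_succ j) hg))
    (Submodule.smul_mem _ _ (mul_mem F i hg)))

theorem pow_mem (y : Fin r → ZMod 2) (j : ℕ) :
    (fun x => (hd x y : F) ^ j) ∈ W F r j := by
  induction j with
  | zero =>
    have : (fun x => (hd x y : F) ^ 0) = ind F (∅ : Finset (Fin r)) := by
      funext x
      simp [ind]
    rw [this]
    exact ind_mem F (by simp)
  | succ j ih =>
    have := hd_mul_mem F y ih
    have h2 : (fun x => (hd x y : F) ^ (j + 1)) = (fun x => (hd x y : F) * (hd x y : F) ^ j) := by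
      funext x
      rw [pow_succ']
    rw [h2]
    exact this

theorem one_sub_mem (y : Fin r → ZMod 2) (j : ℕ) :
    (fun x => 1 - (hd x y : F) ^ j) ∈ W F r j := by
  have h1 : ind F (∅ : Finset (Fin r)) ∈ W F r j := ind_mem F (by simp)
  have : (fun x => 1 - (hd x y : F) ^ j) = ind F (∅ : Finset (Fin r)) -
      (fun x => (hd x y : F) ^ j) := by
    funext x
    simp [ind]
  rw [this]
  exact Submodule.sub_mem _ h1 (pow_mem F y j)

end cube

/-- The elements of weight divisible by p. -/
def conn (r p : ℕ) : Set (Multiplicative (Fin r → ZMod 2)) :=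
  {x | p ∣ hd (Multiplicative.toAdd x) 0}

theorem hd_sub {r : ℕ} (x y : Fin r → ZMod 2) : hd (x - y) 0 = hd x y := by
  unfold hd
  congr 1
  ext i
  simp [sub_eq_zero]

theorem hd_comm {r : ℕ} (x y : Fin r → ZMod 2) : hd x y = hd y x := by
  unfold hd
  congr 1
  ext i
  simp [eq_comm]

theorem conn_adj {r p : ℕ} {x y : Multiplicative (Fin r → ZMod 2)} :
    (cayley (conn r p)).Adj x y ↔
      x ≠ y ∧ p ∣ hd (Multiplicative.toAdd x) (Multiplicative.toAdd y) := by
  have h : ∀ x y : Multiplicative (Fin r → ZMod 2), x * y⁻¹ ∈ conn r p ↔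
      p ∣ hd (Multiplicative.toAdd x) (Multiplicative.toAdd y) := by
    intro x y
    show p ∣ hd (Multiplicative.toAdd (x * y⁻¹)) 0 ↔ _
    rw [toAdd_mul, toAdd_inv, ← sub_eq_add_neg, hd_sub]
  unfold cayley
  rw [SimpleGraph.fromRel_adj, h, h, hd_comm (Multiplicative.toAdd y), or_self]

theorem theta_conn (r p : ℕ) [hp : Fact p.Prime] :
    theta (cayley (conn r p)) ≤
      (Fintype.card {T : Finset (Fin r) // T.card ≤ p - 1} : ℝ) := by
  have hf : Finite (Multiplicative (Fin r → ZMod 2)) := inferInstanceAs (Finite (Fin r → ZMod 2))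
  have h0 : ∀ y : Fin r → ZMod 2, ∃ c : {T : Finset (Fin r) // T.card ≤ p - 1} → ZMod p,
      ∑ T, c T • ind (ZMod p) T.1 = fun x => 1 - (hd x y : ZMod p) ^ (p - 1) := by
    intro y
    have := one_sub_mem (ZMod p) y (p - 1)
    unfold W at this
    rwa [Submodule.mem_span_range_iff_exists_fun] at this
  choose c hc using h0
  have hM : ∀ x y : Multiplicative (Fin r → ZMod 2),
      ∑ T : {T : Finset (Fin r) // T.card ≤ p - 1},
        ind (ZMod p) T.1 (Multiplicative.toAdd x) * c (Multiplicative.toAdd y) T =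
      1 - (hd (Multiplicative.toAdd x) (Multiplicative.toAdd y) : ZMod p) ^ (p - 1) := by
    intro x y
    have := congrFun (hc (Multiplicative.toAdd y)) (Multiplicative.toAdd x)
    rw [← this, Finset.sum_apply]
    refine Finset.sum_congr rfl (fun T _ => ?_)
    rw [Pi.smul_apply, smul_eq_mul, mul_comm]
  have hp1 : p - 1 ≠ 0 := by
    have := hp.out.two_le
    omega
  refine theta_le_of_rep (F := ZMod p) _
    (fun x T => ind (ZMod p) T.1 (Multiplicative.toAdd x))
    (fun y T => c (Multiplicative.toAdd y) T) ?_ ?_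
  · intro x
    rw [hM]
    have : hd (Multiplicative.toAdd x) (Multiplicative.toAdd x) = 0 := by simp [hd]
    rw [this, Nat.cast_zero, zero_pow hp1, sub_zero]
    exact one_ne_zero
  · intro x y hxy
    rw [hM]
    rw [compl_adj, conn_adj] at hxy
    have h5 : ¬ p ∣ hd (Multiplicative.toAdd x) (Multiplicative.toAdd y) :=
      fun h => hxy.2 ⟨hxy.1, h⟩
    have h6 : (hd (Multiplicative.toAdd x) (Multiplicative.toAdd y) : ZMod p) ≠ 0 := by
      rwa [Ne, ZMod.natCast_eq_zero_iff]
    rw [ZMod.pow_card_sub_one_eq_one h6, sub_self]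

end Pool.Agent.MB
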